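import Pool.Agent.Lib.H75U.P1
import Pool.Agent.Lib.H85TF.P2

/-!
# H75U, file P2: the exchange lemma inside a connected set; every vertex is on a cycle of length at least four
-/

set_option autoImplicit false

namespace H75U

open Finset H98M H85TF

variable {V : Type*} [DecidableEq V]

theorem cov4_sub {E : Finset (Sym2 V)} {A B : Finset V} (h : A ⊆ B) (hB : Cov4 E B) : Cov4 E A := by
  obtain ⟨F, h1, h0, h2, h3⟩ := hB
  exact ⟨F, h1, h0, h2, fun v hv => h3 v (h hv)⟩

theorem cov4_edges {E E' : Finset (Sym2 V)} {A : Finset V} (h : E ⊆ E') (hA : Cov4 E A) :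
    Cov4 E' A := by
  obtain ⟨F, h1, h2, h3⟩ := hA
  exact ⟨F, h1.trans h, h2, h3⟩

theorem cov4_empty (E : Finset (Sym2 V)) : Cov4 E ∅ :=
  ⟨∅, empty_subset _, fun _ _ _ h => absurd h (notMem_empty _), fun v => Or.inl (by simp [dg]),
    fun v hv => absurd hv (notMem_empty v)⟩

/-- THE EXCHANGE LEMMA, with a connected set in place of the path. -/
theorem exch4_set {E : Finset (Sym2 V)} (hE : ∀ e ∈ E, ¬ e.IsDiag) {A U : Finset V} {b d : V}
    (hb : Cov4 E (insert b A)) (hd : Cov4 E (insert d A)) (hbU : b ∈ U) (hdU : d ∈ U)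
    (hU : ¬ Disc U E) (hin : ∀ u ∈ U, u ≠ b → u ≠ d → ¬ Cov4 E (insert u A)) :
    Cov4 E (insert b (insert d A)) := by
  obtain ⟨p, hp, hpU⟩ := path_of_not_disc hU hbU hdU
  exact exch4 hE hb hd p hp fun r hr => hin r (hpU r hr)

/-- Closing a path which is not an edge. -/
theorem close4 [Fintype V] {E : Finset (Sym2 V)} (hE : ∀ e ∈ E, ¬ e.IsDiag) {v a c : V} (hac : a ≠ c)
    (ha : s(v, a) ∈ E) (hc : s(v, c) ∈ E) (h : ¬ Disc (univ.erase v) (E.erase s(a, c))) : Cov4 E {v} := by
  classical
  have hav : v ≠ a := fun e => hE _ ha (by simpa using e)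
  have hcv : v ≠ c := fun e => hE _ hc (by simpa using e)
  obtain ⟨p, hp, hpU⟩ := path_of_not_disc h (b := a) (d := c)
    (mem_erase.2 ⟨Ne.symm hav, mem_univ _⟩) (mem_erase.2 ⟨Ne.symm hcv, mem_univ _⟩)
  have hn1 : s(v, c) ∉ (∅ : Finset (Sym2 V)) := notMem_empty _
  have hn2 : s(v, a) ∉ insert s(v, c) (∅ : Finset (Sym2 V)) := by
    intro h
    rcases mem_insert.1 h with h | h
    · rw [Sym2.eq_iff] at h
      rcases h with h | h
      · exact hac h.2
      · exact hcv h.1
    · exact notMem_empty _ h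
  have key : ∀ x, dg (insert s(v, a) (insert s(v, c) (∅ : Finset (Sym2 V)))) x =
      (if x = v ∨ x = c then 1 else 0) + if x = v ∨ x = a then 1 else 0 := by
    intro x
    rw [dg_insert hn2, dg_insert hn1]
    simp [dg]
  have hv2 : dg (insert s(v, a) (insert s(v, c) (∅ : Finset (Sym2 V)))) v = 2 := by
    rw [key]; simp
  have ha' : s(v, a) ∈ E.erase s(a, c) := by
    refine mem_erase.2 ⟨fun h => ?_, ha⟩
    rw [Sym2.eq_iff] at h
    rcases h with h | h
    · exact hav h.1
    · exact hcv h.1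
  have hc' : s(v, c) ∈ E.erase s(a, c) := by
    refine mem_erase.2 ⟨fun h => ?_, hc⟩
    rw [Sym2.eq_iff] at h
    rcases h with h | h
    · exact hav h.1
    · exact hcv h.1
  have hE' : ∀ e ∈ E.erase s(a, c), ¬ e.IsDiag := fun e he => hE e (mem_of_mem_erase he)
  have hNT : NT (insert s(v, a) (insert s(v, c) (∅ : Finset (Sym2 V)))) := by
    refine nt_insert (nt_insert (fun _ _ _ h => absurd h (notMem_empty _)) hcv
      (fun _ => notMem_empty _) (fun _ h => absurd h (notMem_empty _))) hav ?_ ?_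
    · intro x hx
      rcases mem_insert.1 hx with h | h
      · rw [Sym2.eq_iff] at h
        rcases h with h | h
        · exact hcv (h.1.symm.trans h.2)
        · exact hcv (h.2.symm.trans h.1)
      · exact notMem_empty _ h
    · intro w _ hw
      rcases mem_insert.1 hw with h | h
      · rw [Sym2.eq_iff] at h
        rcases h with h | h
        · exact hac h.2
        · exact hav h.2.symm
      · exact notMem_empty _ h
  obtain ⟨F', h1, h0, h2, h4, h5, h6⟩ := addPath4 hE' p hp (insert s(v, a) (insert s(v, c) ∅))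
    (insert_subset ha' (insert_subset hc' (empty_subset _))) hac
    (by
      intro h
      rcases mem_insert.1 h with h | h
      · rw [Sym2.eq_iff] at h
        rcases h with h | h
        · exact hav h.1.symm
        · exact hcv h.2.symm
      · rcases mem_insert.1 h with h | h
        · rw [Sym2.eq_iff] at h
          rcases h with h | h
          · exact hav h.1.symm
          · exact hac h.1
        · exact notMem_empty _ h)
    (by rw [key]; simp [Ne.symm hav, hac])
    (by rw [key]; simp [Ne.symm hcv, Ne.symm hac])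
    (by
      intro x hx1 hx2
      rw [key]
      by_cases hx : x = v
      · subst hx; simp
      · simp [hx, hx1, hx2])
    (by
      intro r hr hr1 hr2
      have hrv : r ≠ v := (mem_erase.1 (hpU r hr)).1
      rw [key]
      simp [hrv, hr1, hr2])
    hNT
    (fun h => absurd rfl (mem_erase.1 h).1)
  refine ⟨F', h1.trans (erase_subset _ _), h0, h2, fun x hx => ?_⟩
  rw [mem_singleton.1 hx]
  exact h6 v hv2

theorem half4 [Fintype V] {E : Finset (Sym2 V)} (hE : ∀ e ∈ E, ¬ e.IsDiag)
    (hcut : ∀ z, ¬ Disc (univ.erase z) E) {v a c : V} {C D : Finset V} (hU : C ∪ D = univ.erase v)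
    (hdis : Disjoint C D) (haC : a ∈ C) (hcD : c ∈ D) (hce : s(v, c) ∈ E)
    (hcr : ∀ x ∈ C, ∀ y ∈ D, s(x, y) ∈ E → x = a ∧ y = c) (h2 : ∃ x ∈ C, x ≠ a) : Cov4 E {v} := by
  classical
  have hvC : ∀ x ∈ C, x ≠ v := fun x hx => (mem_erase.1 (hU ▸ mem_union_left D hx)).1
  have hvD : ∀ x ∈ D, x ≠ v := fun x hx => (mem_erase.1 (hU ▸ mem_union_right C hx)).1
  obtain ⟨x, hx, hxa, hxv⟩ : ∃ x ∈ C, x ≠ a ∧ s(x, v) ∈ E := by
    by_contra hcon
    push Not at hcon
    refine hcut a ⟨C.erase a, insert v D, ?_, ⟨v, mem_insert_self _ _⟩, ?_, ?_, ?_⟩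
    · obtain ⟨x, hx, hxa⟩ := h2
      exact ⟨x, mem_erase.2 ⟨hxa, hx⟩⟩
    · rw [disjoint_left]
      intro x hx hx'
      rw [mem_erase] at hx
      rcases mem_insert.1 hx' with h | h
      · exact hvC x hx.2 h
      · exact disjoint_left.1 hdis hx.2 h
    · ext x
      simp only [mem_union, mem_erase, mem_insert, mem_univ, and_true]
      constructor
      · rintro (h | rfl | h)
        · exact h.1
        · exact fun e => hvC a haC e.symm
        · rintro rfl
          exact disjoint_left.1 hdis haC h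
      · intro h
        by_cases hxv : x = v
        · exact Or.inr (Or.inl hxv)
        · have h3 : x ∈ C ∪ D := by
            rw [hU]
            exact mem_erase.2 ⟨hxv, mem_univ _⟩
          rcases mem_union.1 h3 with h4 | h4
          · exact Or.inl ⟨h, h4⟩
          · exact Or.inr (Or.inr h4)
    · intro x hx y hy hxy
      rw [mem_erase] at hx
      rcases mem_insert.1 hy with rfl | hy
      · exact hcon x hx.2 hx.1 hxy
      · exact hx.1 (hcr x hx.2 y hy hxy).1
  have hxc : x ≠ c := by
    rintro rfl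
    exact disjoint_left.1 hdis hx hcD
  have hn : s(x, c) ∉ E := fun h => hxa (hcr x hx c hcD h).1
  refine close4 hE hxc (by rw [Sym2.eq_swap]; exact hxv) hce ?_
  rw [erase_eq_of_notMem hn]
  exact hcut v

/-- Every vertex of a 2-connected graph with at least four vertices is on a cycle of length at least four. -/
theorem cov4_vertex [Fintype V] {E : Finset (Sym2 V)} (hE : ∀ e ∈ E, ¬ e.IsDiag)
    (h4 : 4 ≤ Fintype.card V) (hc : ¬ Disc univ E) (hcut : ∀ z, ¬ Disc (univ.erase z) E) (v : V) :
    Cov4 E {v} := by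
  classical
  obtain ⟨u, hu⟩ : ∃ u, s(v, u) ∈ E := by
    by_contra hcon
    push Not at hcon
    refine hc ⟨{v}, univ.erase v, singleton_nonempty v, ?_, ?_, ?_, ?_⟩
    · rw [← card_pos, card_erase_of_mem (mem_univ _), card_univ]
      omega
    · simp
    · ext x
      simp
    · intro x hx y _
      rw [mem_singleton.1 hx]
      exact hcon y
  have huv : v ≠ u := fun e => hE _ hu (by simpa using e)
  obtain ⟨w, hwu, hw⟩ : ∃ w, w ≠ u ∧ s(v, w) ∈ E := by
    by_contra hcon
    push Not at hcon
    refine hcut u ⟨{v}, (univ.erase u).erase v, singleton_nonempty v, ?_, ?_, ?_, ?_⟩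
    · rw [← card_pos, card_erase_of_mem (mem_erase.2 ⟨huv, mem_univ _⟩),
        card_erase_of_mem (mem_univ _), card_univ]
      omega
    · simp
    · ext x
      simp only [mem_union, mem_singleton, mem_erase, mem_univ, and_true]
      constructor
      · rintro (rfl | h)
        · exact huv
        · exact h.2
      · intro h
        by_cases hx : x = v
        · exact Or.inl hx
        · exact Or.inr ⟨hx, h⟩
    · intro x hx y hy
      rw [mem_singleton.1 hx]
      rw [mem_erase, mem_erase] at hy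
      exact hcon y hy.2.1
  by_cases hD : Disc (univ.erase v) (E.erase s(u, w))
  swap
  · exact close4 hE (Ne.symm hwu) hu hw hD
  obtain ⟨C, D, hCn, hDn, hdis, hU, hno⟩ := hD
  -- the edge between `C` and `D`
  have hcr : ∀ x ∈ C, ∀ y ∈ D, s(x, y) ∈ E → s(x, y) = s(u, w) := by
    intro x hx y hy hxy
    by_contra hne
    exact hno x hx y hy (mem_erase.2 ⟨hne, hxy⟩)
  obtain ⟨x, hx, y, hy, hxy⟩ : ∃ x ∈ C, ∃ y ∈ D, s(x, y) ∈ E := by
    by_contra hcon
    push Not at hcon
    exact hcut v ⟨C, D, hCn, hDn, hdis, hU, hcon⟩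
  have hxy2 := hcr x hx y hy hxy
  have hsx : s(v, x) ∈ E ∧ s(v, y) ∈ E := by
    rw [Sym2.eq_iff] at hxy2
    rcases hxy2 with ⟨rfl, rfl⟩ | ⟨rfl, rfl⟩
    · exact ⟨hu, hw⟩
    · exact ⟨hw, hu⟩
  have hcr2 : ∀ x' ∈ C, ∀ y' ∈ D, s(x', y') ∈ E → x' = x ∧ y' = y := by
    intro x' hx' y' hy' h
    have h3 := (hcr x' hx' y' hy' h).trans hxy2.symm
    rw [Sym2.eq_iff] at h3
    rcases h3 with h3 | h3
    · exact h3
    · exfalso
      rw [h3.1] at hx'
      exact disjoint_left.1 hdis hx' hy
  have hcard : C.card + D.card = Fintype.card V - 1 := by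
    rw [← card_union_of_disjoint hdis, hU, card_erase_of_mem (mem_univ _), card_univ]
  by_cases hC2 : 2 ≤ C.card
  · refine half4 hE hcut hU hdis hx hy hsx.2 hcr2 ?_
    obtain ⟨x', hx', hne⟩ := exists_mem_ne (s := C) (by omega) x
    exact ⟨x', hx', hne⟩
  · refine half4 (C := D) (D := C) hE hcut (by rw [union_comm]; exact hU) hdis.symm hy hx hsx.1 ?_ ?_
    · intro y' hy' x' hx' h
      rw [Sym2.eq_swap] at h
      exact (hcr2 x' hx' y' hy' h).symm
    · obtain ⟨y', hy', hne⟩ := exists_mem_ne (s := D) (by omega) y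
      exact ⟨y', hy', hne⟩

end H75U
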