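import Pool.Agent.Lib.H85TF.P1

/-!
# H75U, file P1: the exchange lemma for sets covered by pairwise disjoint cycles without triangles

`Cov4 E A`: some subset `F` of the edge set `E`, without triangles, in which every vertex has degree `0` or `2`, has
degree `2` at all the vertices of `A`. `exch4`: the exchange lemma. Proof: walk from `F₁` towards `F₂`; at a vertex `a` of
degree one with its edge `aw` there is always an `F₂`-edge `ay` which can be added, so that, if it closes a triangle `a w y`,
the edge `wy` is not in `F₂` and can be removed next.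
-/

set_option autoImplicit false

namespace H75U

open Finset H85TF

variable {V : Type*} [DecidableEq V]

/-- no triangle -/
def NT (F : Finset (Sym2 V)) : Prop := ∀ x y z, s(x, y) ∈ F → s(y, z) ∈ F → s(x, z) ∉ F

/-- `A` is covered by pairwise disjoint cycles of `E` of length at least `4`. -/
def Cov4 (E : Finset (Sym2 V)) (A : Finset V) : Prop :=
  ∃ F ⊆ E, NT F ∧ (∀ v, dg F v = 0 ∨ dg F v = 2) ∧ ∀ v ∈ A, dg F v = 2

omit [DecidableEq V] in
theorem NT.mono {F F' : Finset (Sym2 V)} (h : NT F) (h' : F' ⊆ F) : NT F' :=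
  fun x y z h1 h2 h3 => h x y z (h' h1) (h' h2) (h' h3)

theorem nt_insert {F : Finset (Sym2 V)} {a y : V} (h : NT F) (hay : a ≠ y)
    (hl : ∀ x, s(x, x) ∉ F)
    (hw : ∀ w, s(a, w) ∈ F → s(w, y) ∉ F) : NT (insert s(a, y) F) := by
  have hm : ∀ (p q : V) (S : Finset (Sym2 V)), s(p, q) ∈ S → s(q, p) ∈ S := by
    intro p q S h
    rw [Sym2.eq_swap]
    exact h
  -- a triangle containing the edge `a y`, third vertex `t`
  have key : ∀ t, s(a, t) ∈ insert s(a, y) F → s(t, y) ∈ insert s(a, y) F → False := by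
    intro t h1 h2
    rcases mem_insert.1 h1 with h1 | h1
    · rw [Sym2.eq_iff] at h1
      rcases h1 with h1 | h1
      · rw [h1.2] at h2
        rcases mem_insert.1 h2 with h2 | h2
        · rw [Sym2.eq_iff] at h2
          rcases h2 with h2 | h2
          · exact hay h2.1.symm
          · exact hay h2.2.symm
        · exact hl _ h2
      · exact hay h1.1
    · rcases mem_insert.1 h2 with h2 | h2
      · rw [Sym2.eq_iff] at h2
        rcases h2 with h2 | h2
        · rw [h2.1] at h1
          exact hl _ h1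
        · exact hay h2.2.symm
      · exact hw t h1 h2
  intro x y' z h1 h2 h3
  rcases mem_insert.1 h1 with e1 | e1
  · rw [Sym2.eq_iff] at e1
    rcases e1 with ⟨rfl, rfl⟩ | ⟨rfl, rfl⟩
    · exact key z h3 (hm _ _ _ h2)
    · exact key z h2 (hm _ _ _ h3)
  · rcases mem_insert.1 h2 with e2 | e2
    · rw [Sym2.eq_iff] at e2
      rcases e2 with ⟨rfl, rfl⟩ | ⟨rfl, rfl⟩
      · exact key x (hm _ _ _ h1) h3
      · exact key x (hm _ _ _ h3) h1
    · rcases mem_insert.1 h3 with e3 | e3
      · rw [Sym2.eq_iff] at e3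
        rcases e3 with ⟨rfl, rfl⟩ | ⟨rfl, rfl⟩
        · exact key y' h1 h2
        · exact key y' (hm _ _ _ h2) (hm _ _ _ h1)
      · exact h x y' z e1 e2 e3

theorem uniq_nb {F : Finset (Sym2 V)} {a w w' : V} (h : dg F a = 1) (h1 : s(a, w) ∈ F) (h2 : s(a, w') ∈ F) :
    w = w' := by
  have h3 := card_le_one.1 (le_of_eq h) s(a, w) (mem_filter.2 ⟨h1, by simp⟩) s(a, w') (mem_filter.2 ⟨h2, by simp⟩)
  rw [Sym2.eq_iff] at h3
  rcases h3 with h3 | h3
  · exact h3.2
  · exact h3.2.trans h3.1

theorem exists_nb {F : Finset (Sym2 V)} {a : V} (h : 0 < dg F a) : ∃ w, s(a, w) ∈ F := by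
  obtain ⟨e, he⟩ := card_pos.1 h
  rw [mem_filter] at he
  obtain ⟨u, rfl⟩ := he.2
  exact ⟨u, he.1⟩

theorem two_nb {F : Finset (Sym2 V)} {a : V} (h : dg F a = 2) : ∃ y1 y2, y1 ≠ y2 ∧ s(a, y1) ∈ F ∧ s(a, y2) ∈ F := by
  obtain ⟨e1, e2, hne, he⟩ := card_eq_two.1 h
  have h1 : e1 ∈ F.filter fun e => a ∈ e := by rw [he]; simp
  have h2 : e2 ∈ F.filter fun e => a ∈ e := by rw [he]; simp
  rw [mem_filter] at h1 h2
  obtain ⟨y1, rfl⟩ := h1.2
  obtain ⟨y2, rfl⟩ := h2.2
  exact ⟨y1, y2, fun h3 => hne (by rw [h3]), h1.1, h2.1⟩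

theorem three_nb {F : Finset (Sym2 V)} {a x y z : V} (hxy : x ≠ y) (hxz : x ≠ z) (hyz : y ≠ z) (h1 : s(a, x) ∈ F)
    (h2 : s(a, y) ∈ F) (h3 : s(a, z) ∈ F) : 3 ≤ dg F a := by
  have hi : Function.Injective fun t : V => s(a, t) := by
    intro t t' h
    have h' : s(a, t) = s(a, t') := h
    rw [Sym2.eq_iff] at h'
    rcases h' with h4 | h4
    · exact h4.2
    · exact h4.2.trans h4.1
  have h4 : (({x, y, z} : Finset V).image fun t => s(a, t)) ⊆ F.filter fun e => a ∈ e := by
    intro e he
    rw [mem_image] at he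
    obtain ⟨t, ht, rfl⟩ := he
    rw [mem_filter]
    refine ⟨?_, by simp⟩
    simp only [mem_insert, mem_singleton] at ht
    rcases ht with rfl | rfl | rfl
    · exact h1
    · exact h2
    · exact h3
  have h5 := card_le_card h4
  rw [card_image_of_injective _ hi, card_eq_three.2 ⟨x, y, z, hxy, hxz, hyz, rfl⟩] at h5
  exact h5

/-- The result of the walk. -/
def Out (F₁ F₂ : Finset (Sym2 V)) (A : Finset V) (b d : V) : Prop :=
  ∃ F' ⊆ F₁ ∪ F₂, NT F' ∧ (∀ v ∈ A, dg F' v = 2) ∧
    (((∀ v, dg F' v = 0 ∨ dg F' v = 2) ∧ dg F' b = 2 ∧ dg F' d = 2) ∨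
      (dg F' b = 1 ∧ dg F' d = 1 ∧ ∀ v, v ≠ b → v ≠ d → dg F' v = 0 ∨ dg F' v = 2))

/-- The state of the walk. -/
structure St (F₁ F₂ : Finset (Sym2 V)) (A : Finset V) (b d : V) (F : Finset (Sym2 V)) (a : V) : Prop where
  sub : F ⊆ F₁ ∪ F₂
  nt : NT F
  ab : a ≠ b
  ad : a ≠ d
  dd : dg F d = 1
  bb : dg F b = 2
  aa : dg F a = 1
  deg : ∀ v, v ≠ a → v ≠ d → dg F v = 0 ∨ dg F v = 2
  cov : ∀ v ∈ A, v ≠ a → dg F v = 2

theorem symm_erase {F F₂ : Finset (Sym2 V)} {e : Sym2 V} (h1 : e ∈ F) (h2 : e ∉ F₂) :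
    (symmDiff (F.erase e) F₂).card < (symmDiff F F₂).card := by
  apply card_lt_card
  rw [ssubset_iff_of_subset]
  · refine ⟨e, ?_, ?_⟩
    · rw [mem_symmDiff]; exact Or.inl ⟨h1, h2⟩
    · rw [mem_symmDiff]; rintro (h | h)
      · exact notMem_erase _ _ h.1
      · exact h2 h.1
  · intro f hf
    rw [mem_symmDiff] at hf ⊢
    rcases hf with hf | hf
    · exact Or.inl ⟨mem_of_mem_erase hf.1, hf.2⟩
    · refine Or.inr ⟨hf.1, fun h4 => hf.2 (mem_erase.2 ⟨?_, h4⟩)⟩
      rintro rfl
      exact h2 hf.1

theorem symm_insert {F F₂ : Finset (Sym2 V)} {e : Sym2 V} (h1 : e ∉ F) (h2 : e ∈ F₂) :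
    (symmDiff (insert e F) F₂).card < (symmDiff F F₂).card := by
  apply card_lt_card
  rw [ssubset_iff_of_subset]
  · refine ⟨e, ?_, ?_⟩
    · rw [mem_symmDiff]; exact Or.inr ⟨h2, h1⟩
    · rw [mem_symmDiff]; rintro (h | h)
      · exact h.2 h2
      · exact h.2 (mem_insert_self _ _)
  · intro f hf
    rw [mem_symmDiff] at hf ⊢
    rcases hf with hf | hf
    · rcases mem_insert.1 hf.1 with h4 | h4
      · exact absurd (h4 ▸ h2) hf.2
      · exact Or.inl ⟨h4, hf.2⟩
    · exact Or.inr ⟨hf.1, fun h4 => hf.2 (mem_insert_of_mem h4)⟩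

/-- removing an edge -/
theorem rem4 {E F₁ F₂ : Finset (Sym2 V)} (hE : ∀ e ∈ E, ¬ e.IsDiag) (h1 : F₁ ⊆ E) (h2 : F₂ ⊆ E)
    {A : Finset V} {b d : V} (hbA : b ∉ A) (hd1 : dg F₁ d = 0)
    {F : Finset (Sym2 V)} {y z : V} (hF : F ⊆ F₁ ∪ F₂) (hyb : y ≠ b) (hyd : y ≠ d) (hz : s(y, z) ∈ F)
    (hz2 : s(y, z) ∉ F₂) (hdd : dg F d = 1) (hbb : dg F b = 2) (hy : dg F y = 3 ∨ (dg F y = 1 ∧ y ∉ A))
    (hdeg : ∀ v, v ≠ y → v ≠ d → dg F v = 0 ∨ dg F v = 2) (hA : ∀ v ∈ A, v ≠ y → dg F v = 2)
    (hnt : NT (F.erase s(y, z))) (rec : St F₁ F₂ A b d (F.erase s(y, z)) z → Out F₁ F₂ A b d) :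
    Out F₁ F₂ A b d := by
  have hyz : y ≠ z := by
    intro e
    refine hE s(y, z) ((union_subset h1 h2) (hF hz)) ?_
    simpa using e
  have hzd : z ≠ d := by
    rintro rfl
    rcases mem_union.1 (hF hz) with h3 | h3
    · have := dg_pos' h3
      omega
    · exact hz2 h3
  have key := dg_erase hz
  have ky := key y
  rw [if_pos (Or.inl rfl)] at ky
  have kz := key z
  rw [if_pos (Or.inr rfl)] at kz
  have kd := key d
  rw [if_neg (by push Not; exact ⟨Ne.symm hyd, Ne.symm hzd⟩)] at kd
  have hF' : F.erase s(y, z) ⊆ F₁ ∪ F₂ := (erase_subset _ _).trans hF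
  have hother : ∀ v, v ≠ y → v ≠ z → dg (F.erase s(y, z)) v = dg F v := by
    intro v h3 h4
    have h5 := key v
    rw [if_neg (by push Not; exact ⟨h3, h4⟩)] at h5
    omega
  have hy' : dg (F.erase s(y, z)) y = 0 ∨ dg (F.erase s(y, z)) y = 2 := by omega
  have hyA : y ∈ A → dg (F.erase s(y, z)) y = 2 := by
    intro h3
    rcases hy with h4 | h4
    · omega
    · exact absurd h3 h4.2
  by_cases hzb : z = b
  · subst hzb
    refine ⟨F.erase s(y, z), hF', hnt, ?_, Or.inr ⟨by omega, by omega, ?_⟩⟩
    · intro v hv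
      by_cases h3 : v = y
      · subst h3; exact hyA hv
      · rw [hother v h3 (fun e => hbA (e ▸ hv))]
        exact hA v hv h3
    · intro v hv1 hv2
      by_cases h3 : v = y
      · subst h3; exact hy'
      · rw [hother v h3 hv1]
        exact hdeg v h3 hv2
  · refine rec ⟨hF', hnt, hzb, hzd, by omega, ?_, ?_, ?_, ?_⟩
    · rw [hother b (Ne.symm hyb) (Ne.symm hzb)]
      exact hbb
    · have := hdeg z (Ne.symm hyz) hzd
      omega
    · intro v hv1 hv2
      by_cases h3 : v = y
      · subst h3; exact hy'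
      · rw [hother v h3 hv1]
        exact hdeg v h3 hv2
    · intro v hv hv1
      by_cases h3 : v = y
      · subst h3; exact hyA hv
      · rw [hother v h3 hv1]
        exact hA v hv h3

/-- The walk from `F₁` towards `F₂`. -/
theorem walk4 {E F₁ F₂ : Finset (Sym2 V)} (hE : ∀ e ∈ E, ¬ e.IsDiag) (h1 : F₁ ⊆ E) (h2 : F₂ ⊆ E)
    {A : Finset V} {b d : V} (hbA : b ∉ A) (hdA : d ∉ A)
    (hd1 : dg F₁ d = 0) (hb2 : dg F₂ b = 0) (hdeg2 : ∀ v, dg F₂ v = 0 ∨ dg F₂ v = 2)
    (hA2 : ∀ v ∈ A, dg F₂ v = 2) (hT2 : NT F₂) :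
    ∀ (k : ℕ) (F : Finset (Sym2 V)) (a : V), (symmDiff F F₂).card < k → St F₁ F₂ A b d F a → Out F₁ F₂ A b d := by
  intro k
  induction k with
  | zero => intro F a h; omega
  | succ k ih =>
    intro F a hk hS
    obtain ⟨hF, hnt, hab, had, hdd, hbb, haa, hdeg, hA⟩ := hS
    have hEu : ∀ {x y : V}, s(x, y) ∈ F₁ ∪ F₂ → x ≠ y := by
      intro x y hxy e
      refine hE s(x, y) ((union_subset h1 h2) hxy) ?_
      simpa using e
    have hl : ∀ x, s(x, x) ∉ F := fun x hx => hEu (hF hx) rfl
    have hsym : ∀ p q : V, s(p, q) = s(q, p) := fun p q => Sym2.eq_swap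
    -- edges of `F` at `d` are in `F₂`
    have hFd : ∀ x, s(x, d) ∈ F → s(x, d) ∈ F₂ := by
      intro x hx
      rcases mem_union.1 (hF hx) with h3 | h3
      · have := dg_pos' h3
        omega
      · exact h3
    obtain ⟨w, hw⟩ := exists_nb (F := F) (a := a) (by omega)
    have hwu : ∀ t, s(a, t) ∈ F → t = w := fun t ht => (uniq_nb haa hw ht).symm
    have haw : a ≠ w := hEu (hF hw)
    rcases hdeg2 a with h0 | h0
    · -- `a` is not in `F₂`: remove its edge
      have hw2 : s(a, w) ∉ F₂ := fun h => by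
        have := dg_pos h
        omega
      have haA : a ∉ A := fun h => by
        have := hA2 a h
        omega
      exact rem4 hE h1 h2 hbA hd1 hF hab had hw hw2 hdd hbb (Or.inr ⟨haa, haA⟩) hdeg hA
        (hnt.mono (erase_subset _ _))
        (ih _ _ (lt_of_lt_of_le (symm_erase hw hw2) (Nat.lt_succ_iff.1 hk)))
    · -- a good neighbour
      obtain ⟨y, hy2, hy, hgood⟩ : ∃ y, s(a, y) ∈ F₂ ∧ s(a, y) ∉ F ∧
          ¬ (s(w, y) ∈ F ∧ (y = d ∨ s(w, y) ∈ F₂)) := by
        obtain ⟨y1, y2, hyy, hy1, hy2⟩ := two_nb h0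
        by_cases hw2 : s(a, w) ∈ F₂
        · obtain ⟨y, hyw, hya⟩ : ∃ y, y ≠ w ∧ s(a, y) ∈ F₂ := by
            by_cases h3 : y1 = w
            · exact ⟨y2, fun h4 => hyy (h3.trans h4.symm), hy2⟩
            · exact ⟨y1, h3, hy1⟩
          refine ⟨y, hya, fun h => hyw (hwu y h), ?_⟩
          rintro ⟨h3, h4⟩
          have h5 : s(w, y) ∈ F₂ := by
            rcases h4 with rfl | h4
            · exact hFd w h3
            · exact h4
          exact hT2 a w y hw2 h5 hya
        · have hn : ∀ y, s(a, y) ∈ F₂ → s(a, y) ∉ F := by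
            intro y h3 h4
            rw [hwu y h4] at h3
            exact hw2 h3
          by_cases hg1 : s(w, y1) ∈ F ∧ (y1 = d ∨ s(w, y1) ∈ F₂)
          · by_cases hg2 : s(w, y2) ∈ F ∧ (y2 = d ∨ s(w, y2) ∈ F₂)
            · exfalso
              have h3 := three_nb (F := F) (a := w) (x := a) (y := y1) (z := y2)
                (hEu (mem_union_right _ hy1)) (hEu (mem_union_right _ hy2)) hyy (by rw [hsym]; exact hw) hg1.1 hg2.1
              by_cases hwd : w = d
              · rw [hwd] at h3
                omega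
              · have := hdeg w (Ne.symm haw) hwd
                omega
            · exact ⟨y2, hy2, hn y2 hy2, hg2⟩
          · exact ⟨y1, hy1, hn y1 hy1, hg1⟩
      have hay : a ≠ y := hEu (mem_union_right _ hy2)
      have hyb : y ≠ b := by
        rintro rfl
        have := dg_pos' hy2
        omega
      have key := dg_insert hy
      have ka := key a
      rw [if_pos (Or.inl rfl)] at ka
      have ky := key y
      rw [if_pos (Or.inr rfl)] at ky
      have hother : ∀ v, v ≠ a → v ≠ y → dg (insert s(a, y) F) v = dg F v := by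
        intro v h3 h4
        have h5 := key v
        rw [if_neg (by push Not; exact ⟨h3, h4⟩)] at h5
        omega
      have kb := hother b (Ne.symm hab) (Ne.symm hyb)
      have hG : insert s(a, y) F ⊆ F₁ ∪ F₂ := insert_subset (mem_union_right _ hy2) hF
      have hins : s(w, y) ∉ F → NT (insert s(a, y) F) := by
        intro h3
        refine nt_insert hnt hay hl fun t ht => ?_
        rw [hwu t ht]
        exact h3
      by_cases hyd : y = d
      · subst hyd
        refine ⟨insert s(a, y) F, hG, hins fun h3 => hgood ⟨h3, Or.inl rfl⟩, ?_, Or.inl ⟨?_, by omega, by omega⟩⟩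
        · intro v hv
          by_cases h3 : v = a
          · subst h3; omega
          · rw [hother v h3 (fun e => hdA (e ▸ hv))]
            exact hA v hv h3
        · intro v
          by_cases h3 : v = a
          · subst h3; omega
          · by_cases h4 : v = y
            · subst h4; omega
            · rw [hother v h3 h4]
              exact hdeg v h3 h4
      · have kd := hother d (Ne.symm had) (Ne.symm hyd)
        have hdegG : ∀ v, v ≠ y → v ≠ d → dg (insert s(a, y) F) v = 0 ∨ dg (insert s(a, y) F) v = 2 := by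
          intro v hv1 hv2
          by_cases h3 : v = a
          · subst h3; omega
          · rw [hother v h3 hv1]
            exact hdeg v h3 hv2
        have hAG : ∀ v ∈ A, v ≠ y → dg (insert s(a, y) F) v = 2 := by
          intro v hv hv1
          by_cases h3 : v = a
          · subst h3; omega
          · rw [hother v h3 hv1]
            exact hA v hv h3
        have hlt := symm_insert hy hy2
        rcases hdeg y (Ne.symm hay) hyd with hy0 | hy0
        · -- `y` is new
          have hwy : s(w, y) ∉ F := fun h => by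
            have := dg_pos' h
            omega
          exact ih _ y (by omega) ⟨hG, hins hwy, hyb, hyd, by omega, by omega, by omega, hdegG, hAG⟩
        · -- remove an edge at `y`
          obtain ⟨z, hz, hz2, hzn⟩ : ∃ z, s(y, z) ∈ insert s(a, y) F ∧ s(y, z) ∉ F₂ ∧
              NT ((insert s(a, y) F).erase s(y, z)) := by
            by_cases hwy : s(w, y) ∈ F
            · have hyw2 : s(y, w) ∉ F₂ := by
                rw [hsym]
                exact fun h => hgood ⟨hwy, Or.inr h⟩
              refine ⟨w, mem_insert_of_mem (by rw [hsym]; exact hwy), hyw2, ?_⟩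
              have hne : s(a, y) ≠ s(y, w) := by
                intro h
                rw [Sym2.eq_iff] at h
                rcases h with h | h
                · exact hay h.1
                · exact haw h.1
              rw [erase_insert_of_ne hne]
              refine nt_insert (hnt.mono (erase_subset _ _)) hay (fun x hx => hl x (mem_of_mem_erase hx)) ?_
              intro t ht
              rw [hwu t (mem_of_mem_erase ht), hsym w y]
              exact notMem_erase _ _
            · obtain ⟨z, hz, hz2⟩ := exists_edge (F := insert s(a, y) F) (F' := F₂) (a := y)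
                (by have := hdeg2 y; omega)
              exact ⟨z, hz, hz2, (hins hwy).mono (erase_subset _ _)⟩
          have hlt2 := symm_erase hz hz2
          exact rem4 hE h1 h2 hbA hd1 hG hyb hyd hz hz2 (by omega) (by omega) (Or.inl (by omega)) hdegG hAG hzn
            (ih _ _ (by omega))

/-- Adding a path whose inner vertices have degree `0`. -/
theorem addPath4 {E : Finset (Sym2 V)} (hE : ∀ e ∈ E, ¬ e.IsDiag) {d : V} :
    ∀ {x : V} (p : (SimpleGraph.fromEdgeSet (E : Set (Sym2 V))).Walk x d), p.IsPath →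
      ∀ F : Finset (Sym2 V), F ⊆ E → x ≠ d → s(x, d) ∉ F → dg F x = 1 → dg F d = 1 →
      (∀ v, v ≠ x → v ≠ d → dg F v = 0 ∨ dg F v = 2) →
      (∀ r ∈ p.support, r ≠ x → r ≠ d → dg F r = 0) → NT F →
      (s(x, d) ∈ E → ∀ w, s(x, w) ∈ F → s(w, d) ∉ F) →
      ∃ F' ⊆ E, NT F' ∧ (∀ v, dg F' v = 0 ∨ dg F' v = 2) ∧ dg F' x = 2 ∧ dg F' d = 2 ∧
        ∀ v, dg F v = 2 → dg F' v = 2 := by
  intro x p
  induction p with
  | nil => intro _ F _ h; exact absurd rfl h
  | @cons x y d h q ih =>
    intro hp F hF hxd hne hx hd hdeg hin hnt hC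
    have hl : ∀ x, s(x, x) ∉ F := fun x hx => hE _ (hF hx) (by simp)
    rw [SimpleGraph.fromEdgeSet_adj] at h
    obtain ⟨hxy, hxy'⟩ := h
    rw [SimpleGraph.Walk.cons_isPath_iff] at hp
    by_cases hyd : y = d
    · subst hyd
      have key := dg_insert hne
      refine ⟨insert s(x, y) F, insert_subset (by exact_mod_cast hxy) hF,
        nt_insert hnt hxy' hl (hC (by exact_mod_cast hxy)), ?_, ?_, ?_, ?_⟩
      · intro v
        rw [key v]
        by_cases h1 : v = x
        · subst h1; simp [hx]
        · by_cases h2 : v = y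
          · subst h2; simp [hd]
          · simpa [h1, h2] using hdeg v h1 h2
      · rw [key x]; simp [hx]
      · rw [key y]; simp [hd]
      · intro v hv
        rw [key v]
        have h1 : v ≠ x := fun e => by subst e; omega
        have h2 : v ≠ y := fun e => by subst e; omega
        simpa [h1, h2] using hv
    · have hy0 : dg F y = 0 := hin y (by simp) (Ne.symm hxy') hyd
      have hnF : s(x, y) ∉ F := fun h' => by
        have := dg_pos' h'
        omega
      have key := dg_insert hnF
      obtain ⟨F', hF', h0, h1, h2, h3, h4⟩ := ih hp.1 (insert s(x, y) F)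
        (insert_subset (by exact_mod_cast hxy) hF) hyd
        (by
          intro h'
          rcases mem_insert.1 h' with h' | h'
          · rw [Sym2.eq_iff] at h'
            rcases h' with h' | h'
            · exact hxy' h'.1.symm
            · exact hxd h'.2.symm
          · have := dg_pos h'
            omega)
        (by rw [key y]; simp [hy0])
        (by
          rw [key d]
          have h1 : d ≠ x := Ne.symm hxd
          have h2 : d ≠ y := Ne.symm hyd
          simpa [h1, h2] using hd)
        (by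
          intro v hv1 hv2
          rw [key v]
          by_cases h1 : v = x
          · subst h1; simp [hx]
          · simpa [h1, hv1] using hdeg v h1 hv2)
        (by
          intro r hr hr1 hr2
          have h1 : r ≠ x := fun e => hp.2 (e ▸ hr)
          rw [key r]
          have := hin r (by simp [hr]) h1 hr2
          simpa [h1, hr1] using this)
        (by
          refine nt_insert hnt hxy' hl fun w _ h5 => ?_
          have := dg_pos' h5
          omega)
        (by
          intro _ w hw hwd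
          have hwx : w = x := by
            rcases mem_insert.1 hw with h5 | h5
            · rw [Sym2.eq_iff] at h5
              rcases h5 with h5 | h5
              · exact absurd h5.1.symm hxy'
              · exact h5.2
            · have := dg_pos h5
              omega
          rw [hwx] at hwd
          rcases mem_insert.1 hwd with h5 | h5
          · rw [Sym2.eq_iff] at h5
            rcases h5 with h5 | h5
            · exact hyd h5.2.symm
            · exact hxy' h5.1
          · exact hne h5)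
      refine ⟨F', hF', h0, h1, h4 x (by rw [key x]; simp [hx]), h3, fun v hv => h4 v ?_⟩
      rw [key v]
      have h5 : v ≠ x := fun e => by subst e; omega
      have h6 : v ≠ y := fun e => by subst e; omega
      simpa [h5, h6] using hv

/-- Inserting `d` into the edge `b w`. -/
theorem insert_vertex {E F₁ : Finset (Sym2 V)} (hE : ∀ e ∈ E, ¬ e.IsDiag) (h1 : F₁ ⊆ E) (hnt : NT F₁)
    (hdeg1 : ∀ v, dg F₁ v = 0 ∨ dg F₁ v = 2) {b w d : V} (hbw : s(b, w) ∈ F₁) (hd1 : dg F₁ d = 0)
    (hbd : s(b, d) ∈ E) (hwd : s(w, d) ∈ E) {A : Finset V} (hA : ∀ v ∈ A, dg F₁ v = 2) :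
    Cov4 E (insert b (insert d A)) := by
  have hne : ∀ {x y : V}, s(x, y) ∈ E → x ≠ y := by
    intro x y h e
    exact hE _ h (by simpa using e)
  have hbd' := hne hbd
  have hwd' := hne hwd
  have hbw' := hne (h1 hbw)
  have hdn : ∀ t, s(t, d) ∉ F₁ := fun t h => by
    have := dg_pos' h
    omega
  have hG0 := dg_erase hbw
  have hn1 : s(w, d) ∉ F₁.erase s(b, w) := fun h => hdn w (mem_of_mem_erase h)
  have hG1 := dg_insert hn1
  have hn2 : s(b, d) ∉ insert s(w, d) (F₁.erase s(b, w)) := by
    intro h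
    rcases mem_insert.1 h with h | h
    · rw [Sym2.eq_iff] at h
      rcases h with h | h
      · exact hbw' h.1
      · exact hbd' h.1
    · exact hdn b (mem_of_mem_erase h)
  have hG2 := dg_insert hn2
  have hb2 : dg F₁ b = 2 := by
    have := dg_pos hbw
    have := hdeg1 b
    omega
  have hw2 : dg F₁ w = 2 := by
    have := dg_pos' hbw
    have := hdeg1 w
    omega
  have hval : ∀ v, dg (insert s(b, d) (insert s(w, d) (F₁.erase s(b, w)))) v =
      if v = d then 2 else dg F₁ v := by
    intro v
    have e0 := hG0 v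
    have e1 := hG1 v
    have e2 := hG2 v
    by_cases h3 : v = d
    · subst h3
      rw [if_pos (Or.inr rfl)] at e1 e2
      rw [if_neg (by push Not; exact ⟨Ne.symm hbd', Ne.symm hwd'⟩)] at e0
      rw [if_pos rfl]
      omega
    · rw [if_neg h3]
      by_cases h4 : v = b
      · subst h4
        rw [if_pos (Or.inl rfl)] at e0 e2
        rw [if_neg (by push Not; exact ⟨hbw', h3⟩)] at e1
        omega
      · by_cases h5 : v = w
        · subst h5
          rw [if_pos (Or.inr rfl)] at e0
          rw [if_pos (Or.inl rfl)] at e1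
          rw [if_neg (by push Not; exact ⟨h4, h3⟩)] at e2
          omega
        · rw [if_neg (by push Not; exact ⟨h4, h5⟩)] at e0
          rw [if_neg (by push Not; exact ⟨h5, h3⟩)] at e1
          rw [if_neg (by push Not; exact ⟨h4, h3⟩)] at e2
          omega
  have hl0 : ∀ x, s(x, x) ∉ F₁.erase s(b, w) := fun x hx => hne (h1 (mem_of_mem_erase hx)) rfl
  have hl1 : ∀ x, s(x, x) ∉ insert s(w, d) (F₁.erase s(b, w)) := by
    intro x hx
    rcases mem_insert.1 hx with h | h
    · exact hne (x := x) (y := x) (h ▸ hwd) rfl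
    · exact hl0 x h
  have hN1 : NT (insert s(w, d) (F₁.erase s(b, w))) :=
    nt_insert (hnt.mono (erase_subset _ _)) hwd' hl0 fun t _ h => hdn t (mem_of_mem_erase h)
  have hN2 : NT (insert s(b, d) (insert s(w, d) (F₁.erase s(b, w)))) := by
    refine nt_insert hN1 hbd' hl1 fun t ht h => ?_
    have htw : t = w := by
      rcases mem_insert.1 h with h | h
      · rw [Sym2.eq_iff] at h
        rcases h with h | h
        · exact h.1
        · exact absurd h.2.symm hwd'
      · exact absurd (mem_of_mem_erase h) (hdn t)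
    rw [htw] at ht
    rcases mem_insert.1 ht with ht | ht
    · rw [Sym2.eq_iff] at ht
      rcases ht with ht | ht
      · exact hbw' ht.1
      · exact hbd' ht.1
    · exact notMem_erase _ _ ht
  refine ⟨_, insert_subset hbd (insert_subset hwd ((erase_subset _ _).trans h1)), hN2, fun v => ?_, fun v hv => ?_⟩
  · rw [hval]
    by_cases h3 : v = d
    · rw [if_pos h3]
      exact Or.inr rfl
    · rw [if_neg h3]
      exact hdeg1 v
  · rw [hval]
    by_cases h3 : v = d
    · rw [if_pos h3]
    · rw [if_neg h3]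
      rcases mem_insert.1 hv with rfl | hv
      · exact hb2
      · rcases mem_insert.1 hv with rfl | hv
        · exact absurd rfl h3
        · exact hA v hv

/-- THE EXCHANGE LEMMA. -/
theorem exch4 {E : Finset (Sym2 V)} (hE : ∀ e ∈ E, ¬ e.IsDiag) {A : Finset V} {b d : V}
    (hb : Cov4 E (insert b A)) (hd : Cov4 E (insert d A))
    (p : (SimpleGraph.fromEdgeSet (E : Set (Sym2 V))).Walk b d) (hp : p.IsPath)
    (hin : ∀ r ∈ p.support, r ≠ b → r ≠ d → ¬ Cov4 E (insert r A)) :
    Cov4 E (insert b (insert d A)) := by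
  obtain ⟨F₁, h1, hT1, hdeg1, hA1⟩ := hb
  obtain ⟨F₂, h2, hT2, hdeg2, hA2⟩ := hd
  have hb1 : dg F₁ b = 2 := hA1 b (mem_insert_self _ _)
  have hd2 : dg F₂ d = 2 := hA2 d (mem_insert_self _ _)
  rcases hdeg1 d with hd1 | hd1
  swap
  · refine ⟨F₁, h1, hT1, hdeg1, fun v hv => ?_⟩
    rcases mem_insert.1 hv with rfl | hv
    · exact hb1
    · rcases mem_insert.1 hv with rfl | hv
      · exact hd1
      · exact hA1 v (mem_insert_of_mem hv)
  rcases hdeg2 b with hb2 | hb2
  swap
  · refine ⟨F₂, h2, hT2, hdeg2, fun v hv => ?_⟩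
    rcases mem_insert.1 hv with rfl | hv
    · exact hb2
    · exact hA2 v hv
  have hbd : b ≠ d := by rintro rfl; omega
  have hbA : b ∉ A := fun h => by
    have := hA2 b (mem_insert_of_mem h)
    omega
  have hdA : d ∉ A := fun h => by
    have := hA1 d (mem_insert_of_mem h)
    omega
  have hA2' : ∀ v ∈ A, dg F₂ v = 2 := fun v hv => hA2 v (mem_insert_of_mem hv)
  have hl1 : ∀ x, s(x, x) ∉ F₁ := fun x hx => hE _ (h1 hx) (by simp)
  obtain ⟨u, hu2, hu⟩ := exists_edge (F := F₂) (F' := F₁) (a := d) (by omega)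
  have hdu : d ≠ u := fun e => hE s(d, u) (h2 hu2) (by simpa using e)
  have hub : u ≠ b := by
    rintro rfl
    have := dg_pos' hu2
    omega
  have key := dg_insert hu
  have kd := key d
  rw [if_pos (Or.inl rfl)] at kd
  have ku := key u
  rw [if_pos (Or.inr rfl)] at ku
  have kb := key b
  rw [if_neg (by push Not; exact ⟨hbd, Ne.symm hub⟩)] at kb
  have hX : insert s(d, u) F₁ ⊆ F₁ ∪ F₂ := insert_subset (mem_union_right _ hu2) subset_union_left
  have hXn : NT (insert s(d, u) F₁) := by
    refine nt_insert hT1 hdu hl1 fun w h3 _ => ?_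
    have := dg_pos h3
    omega
  have hXdeg : ∀ v, v ≠ u → v ≠ d → dg (insert s(d, u) F₁) v = 0 ∨ dg (insert s(d, u) F₁) v = 2 := by
    intro v hv1 hv2
    have h5 := key v
    rw [if_neg (by push Not; exact ⟨hv2, hv1⟩)] at h5
    have := hdeg1 v
    omega
  have hXA : ∀ v ∈ A, v ≠ u → dg (insert s(d, u) F₁) v = 2 := by
    intro v hv hv1
    have hv2 : v ≠ d := fun e => hdA (e ▸ hv)
    have h5 := key v
    rw [if_neg (by push Not; exact ⟨hv2, hv1⟩)] at h5
    have := hA1 v (mem_insert_of_mem hv)
    omega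
  have hOut : Out F₁ F₂ A b d := by
    rcases hdeg1 u with hu0 | hu0
    · exact walk4 hE h1 h2 hbA hdA hd1 hb2 hdeg2 hA2' hT2 _ (insert s(d, u) F₁) u (Nat.lt_succ_self _)
        ⟨hX, hXn, hub, Ne.symm hdu, by omega, by omega, by omega, hXdeg, hXA⟩
    · obtain ⟨z, hz, hz2⟩ := exists_edge (F := insert s(d, u) F₁) (F' := F₂) (a := u)
        (by have := hdeg2 u; omega)
      exact rem4 hE h1 h2 hbA hd1 hX hub (Ne.symm hdu) hz hz2 (by omega) (by omega) (Or.inl (by omega)) hXdeg hXA
        (hXn.mono (erase_subset _ _))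
        (fun hS => walk4 hE h1 h2 hbA hdA hd1 hb2 hdeg2 hA2' hT2 _ _ z (Nat.lt_succ_self _) hS)
  obtain ⟨F', hF', hN, hA', h3⟩ := hOut
  rcases h3 with ⟨h4, h5, h6⟩ | ⟨h4, h5, h6⟩
  · refine ⟨F', hF'.trans (union_subset h1 h2), hN, h4, fun v hv => ?_⟩
    rcases mem_insert.1 hv with rfl | hv
    · exact h5
    · rcases mem_insert.1 hv with rfl | hv
      · exact h6
      · exact hA' v hv
  · by_cases hdir : s(b, d) ∈ E ∧ ∃ w, s(b, w) ∈ F' ∧ s(w, d) ∈ F'
    · obtain ⟨hbdE, w, hw1, hw2⟩ := hdir
      have hw1' : s(b, w) ∈ F₁ := by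
        rcases mem_union.1 (hF' hw1) with h | h
        · exact h
        · have := dg_pos h
          omega
      exact insert_vertex hE h1 hT1 hdeg1 hw1' hd1 hbdE ((union_subset h1 h2) (hF' hw2))
        (fun v hv => hA1 v (mem_insert_of_mem hv))
    · obtain ⟨F'', hF'', h0, h7, h8, h9, h10⟩ := addPath4 hE p hp F' (hF'.trans (union_subset h1 h2)) hbd
        (by
          intro h
          rcases mem_union.1 (hF' h) with h | h
          · have := dg_pos' h
            omega
          · have := dg_pos h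
            omega) h4 h5 h6
        (by
          intro r hr hr1 hr2
          have hn := hin r hr hr1 hr2
          refine dg_union_zero hF' ?_ ?_
          · rcases hdeg1 r with h | h
            · exact h
            · refine absurd ⟨F₁, h1, hT1, hdeg1, fun v hv => ?_⟩ hn
              rcases mem_insert.1 hv with rfl | hv
              · exact h
              · exact hA1 v (mem_insert_of_mem hv)
          · rcases hdeg2 r with h | h
            · exact h
            · refine absurd ⟨F₂, h2, hT2, hdeg2, fun v hv => ?_⟩ hn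
              rcases mem_insert.1 hv with rfl | hv
              · exact h
              · exact hA2 v (mem_insert_of_mem hv))
        hN
        (fun hbdE w hw1 hw2 => hdir ⟨hbdE, w, hw1, hw2⟩)
      refine ⟨F'', hF'', h0, h7, fun v hv => ?_⟩
      rcases mem_insert.1 hv with rfl | hv
      · exact h8
      · rcases mem_insert.1 hv with rfl | hv
        · exact h9
        · exact h10 v (hA' v hv)

end H75U
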